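import Mathlib
import Pool.Agent.Helper88.BandLimited

/-!
# A real Banach space with a nonzero skew-hermitian operator and no copy of `ℂ`
-/

namespace Pool.Agent.Results.MP_981724_an.SkewNoC

/-- The numerical range `V(T) = {x*(Tx) : ‖x‖ = 1, ‖x*‖ = 1, x*(x) = 1}` of a bounded linear
operator on a real normed space. -/
def numericalRange {X : Type*} [NormedAddCommGroup X] [NormedSpace ℝ X] (T : X →L[ℝ] X) :
    Set ℝ :=
  {r | ∃ (x : X) (φ : X →L[ℝ] ℝ), ‖x‖ = 1 ∧ ‖φ‖ = 1 ∧ φ x = 1 ∧ φ (T x) = r}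

/-- `T` is skew-hermitian if `V(T) = {0}`. -/
def IsSkewHermitian {X : Type*} [NormedAddCommGroup X] [NormedSpace ℝ X] (T : X →L[ℝ] X) :
    Prop :=
  numericalRange T = {0}

/-- `X` contains a (nonzero, closed) subspace `Z` with a norm-compatible complex structure `J`. -/
def HasComplexSubspace (X : Type*) [NormedAddCommGroup X] [NormedSpace ℝ X] : Prop :=
  ∃ (Z : Submodule ℝ X) (J : Z →ₗ[ℝ] Z), IsClosed (Z : Set X) ∧ Z ≠ ⊥ ∧
    (∀ z : Z, J (J z) = -z) ∧
    ∀ (ρ : ℝ) (z : Z), ‖Real.cos ρ • z + Real.sin ρ • J z‖ = ‖z‖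

/-- **Result.** There is a real Banach space `X` carrying a nonzero skew-hermitian operator `T`
such that `X` has no nonzero closed subspace with a norm-compatible complex structure and no
two-dimensional subspace of `X` is isometric to the Euclidean plane. -/
theorem result : ∃ (X : Type) (_ : NormedAddCommGroup X) (_ : NormedSpace ℝ X)
    (_ : CompleteSpace X) (T : X →L[ℝ] X),
    T ≠ 0 ∧ IsSkewHermitian T ∧ ¬ HasComplexSubspace X ∧
      IsEmpty (EuclideanSpace ℝ (Fin 2) →ₗᵢ[ℝ] X) :=
  ⟨Helper88.BandLimited.S, inferInstance, inferInstance, inferInstance, Helper88.BandLimited.T,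
    Helper88.BandLimited.T_ne_zero, Helper88.BandLimited.isSkew_T, Helper88.BandLimited.no_complex,
    Helper88.BandLimited.no_isometry⟩

end Pool.Agent.Results.MP_981724_an.SkewNoC
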